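import Pool.Agent.TH774.KP.Main

set_option autoImplicit false

/-! A continuous injective multiplicative linear map of `C(K, 𝕜)` into a normed algebra does not
decrease the norm (Kaplansky). -/

namespace Pool.Agent.TH774.KP

open Topology Filter Set

variable {K : Type*} [TopologicalSpace K] [CompactSpace K] [T2Space K] {𝕜 : Type*} [RCLike 𝕜]
  {B : Type*} [NonUnitalNormedRing B] [NormedSpace 𝕜 B]

theorem one_le_of_apply_eq_one (θ : C(K, 𝕜) →ₗ[𝕜] B) (hmul : ∀ f g, θ (f * g) = θ f * θ g)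
    {M : ℝ} (hM : ∀ f, ‖θ f‖ ≤ M * ‖f‖) (hinj : Function.Injective θ) (f : C(K, 𝕜)) (p : K)
    (hp : f p = 1) : 1 ≤ ‖θ f‖ := by
  by_contra hlt
  push Not at hlt
  -- a small number
  obtain ⟨ε, hε0, hε⟩ : ∃ ε : ℝ, 0 < ε ∧ |M| * ε < 1 - ‖θ f‖ := by
    refine ⟨(1 - ‖θ f‖) / (|M| + 1), div_pos (by linarith) (by positivity), ?_⟩
    rw [← mul_div_assoc, div_lt_iff₀ (by positivity)]
    nlinarith [abs_nonneg M]
  let U : Set K := {t | ‖1 - f t‖ < ε}
  have hU : IsOpen U := isOpen_lt (continuous_const.sub f.continuous).norm continuous_const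
  have hpU : p ∈ U := by
    change ‖1 - f p‖ < ε
    rw [hp, sub_self, norm_zero]
    exact hε0
  -- `g = 1` near `p`
  obtain ⟨V, hV, hpV, hVU⟩ : ∃ V : Set K, IsOpen V ∧ p ∈ V ∧ closure V ⊆ U := by
    obtain ⟨V, h1, h2, h3⟩ := normal_exists_closure_subset (isClosed_singleton (x := p)) hU
      (singleton_subset_iff.2 hpU)
    exact ⟨V, h1, singleton_subset_iff.1 h2, h3⟩
  obtain ⟨e, he1, he2, he3⟩ := exists_tsupport_one_of_isOpen_isClosed (X := K) hU
    isClosed_closure.isCompact (isClosed_closure (s := V)) hVU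
  obtain ⟨k, hk1, hk2, hk3⟩ := bump hV hpV
  let g : C(K, 𝕜) := ⟨fun t => (e t : 𝕜), RCLike.continuous_ofReal.comp e.continuous⟩
  let h : C(K, 𝕜) := ⟨fun t => (k t : 𝕜), RCLike.continuous_ofReal.comp k.continuous⟩
  have eg : ∀ t, g t = (e t : 𝕜) := fun _ => rfl
  have eh : ∀ t, h t = (k t : 𝕜) := fun _ => rfl
  have hgh : g * h = h := by
    ext t
    rw [ContinuousMap.mul_apply, eg, eh]
    by_cases ht : k t = 0
    · rw [ht]
      simp
    · have h1 : t ∈ closure V := subset_closure (hk1 (subset_tsupport _ ht))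
      have h2 : e t = 1 := he2 h1
      rw [h2]
      simp
  have hθh : θ h ≠ 0 := by
    intro h0
    have h1 : h = 0 := hinj (by rw [h0, map_zero])
    have h2 : h p = 0 := by rw [h1]; rfl
    rw [eh, hk2] at h2
    simp at h2
  have hg1 : 1 ≤ ‖θ g‖ := by
    have h1 : ‖θ h‖ ≤ ‖θ g‖ * ‖θ h‖ := by
      have h2 := norm_mul_le (θ g) (θ h)
      rwa [← hmul, hgh] at h2
    have h2 : 0 < ‖θ h‖ := norm_pos_iff.2 hθh
    by_contra hc
    push Not at hc
    nlinarith
  have hgn : ‖g - f * g‖ ≤ ε := by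
    rw [ContinuousMap.norm_le _ hε0.le]
    intro t
    rw [ContinuousMap.sub_apply, ContinuousMap.mul_apply]
    have h1 : g t - f t * g t = (1 - f t) * g t := by ring
    rw [h1, norm_mul, eg, RCLike.norm_ofReal, abs_of_nonneg (he3 t).1]
    by_cases ht : e t = 0
    · rw [ht, mul_zero]
      exact hε0.le
    · have h2 : t ∈ U := he1 (subset_tsupport _ ht)
      have h3 : ‖1 - f t‖ < ε := h2
      have h4 := (he3 t).2
      have h5 := (he3 t).1
      nlinarith [norm_nonneg (1 - f t)]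
  have h1 : ‖θ g‖ ≤ |M| * ε + ‖θ f‖ * ‖θ g‖ := by
    have h2 : g = (g - f * g) + f * g := by abel
    have h3 : θ g = θ (g - f * g) + θ f * θ g := by
      rw [← hmul, ← map_add, sub_add_cancel]
    calc ‖θ g‖ = ‖θ (g - f * g) + θ f * θ g‖ := by rw [← h3]
      _ ≤ ‖θ (g - f * g)‖ + ‖θ f * θ g‖ := norm_add_le _ _
      _ ≤ |M| * ε + ‖θ f‖ * ‖θ g‖ := by
        refine add_le_add ?_ (norm_mul_le _ _)
        refine (hM _).trans ?_
        refine (mul_le_mul_of_nonneg_right (le_abs_self M) (norm_nonneg _)).trans ?_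
        exact mul_le_mul_of_nonneg_left hgn (abs_nonneg M)
  have h2 : 0 ≤ |M| * ε := by positivity
  nlinarith [norm_nonneg (θ f)]

theorem norm_le_of_injective (θ : C(K, 𝕜) →ₗ[𝕜] B) (hmul : ∀ f g, θ (f * g) = θ f * θ g)
    (hc : Continuous θ) (hinj : Function.Injective θ) (f : C(K, 𝕜)) : ‖f‖ ≤ ‖θ f‖ := by
  let L : C(K, 𝕜) →L[𝕜] B := ⟨θ, hc⟩
  have hL : ∀ f, ‖θ f‖ ≤ ‖L‖ * ‖f‖ := fun f => L.le_opNorm f
  rw [ContinuousMap.norm_le _ (norm_nonneg _)]
  intro p
  by_cases hp : f p = 0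
  · rw [hp, norm_zero]
    exact norm_nonneg _
  · have h1 := one_le_of_apply_eq_one θ hmul hL hinj ((f p)⁻¹ • f) p (by
      rw [ContinuousMap.smul_apply, smul_eq_mul, inv_mul_cancel₀ hp])
    rw [map_smul, norm_smul, norm_inv] at h1
    have h2 : 0 < ‖f p‖ := norm_pos_iff.2 hp
    rw [← div_eq_inv_mul, le_div_iff₀ h2, one_mul] at h1
    exact h1

end Pool.Agent.TH774.KP
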