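import Mathlib

set_option autoImplicit false

/-! Boundedness of multiplicative linear maps from `C(K, 𝕜)` into normed algebras on disjoint open
sets (Bade and Curtis), and finite unions. -/

namespace Pool.Agent.TH774.KP

open Topology Filter Set

variable {K : Type*} [TopologicalSpace K] [CompactSpace K] {𝕜 : Type*} [RCLike 𝕜]
  {B : Type*} [NonUnitalNormedRing B] [NormedSpace 𝕜 B]

/-- `θ` is bounded on the functions of norm at most one which vanish outside `P`. -/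
def Bd (θ : C(K, 𝕜) →ₗ[𝕜] B) (P : K → Prop) : Prop :=
  ∃ M : ℝ, ∀ f : C(K, 𝕜), ‖f‖ ≤ 1 → (∀ t, f t ≠ 0 → P t) → ‖θ f‖ ≤ M

theorem Bd.mono {θ : C(K, 𝕜) →ₗ[𝕜] B} {P Q : K → Prop} (h : Bd θ Q) (hPQ : ∀ t, P t → Q t) :
    Bd θ P := by
  obtain ⟨M, hM⟩ := h
  exact ⟨M, fun f hf hf' => hM f hf fun t ht => hPQ t (hf' t ht)⟩

theorem Bd.false (θ : C(K, 𝕜) →ₗ[𝕜] B) : Bd θ (fun _ => False) := by
  refine ⟨0, fun f _ hf => ?_⟩
  have h : f = 0 := by
    ext t
    by_contra h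
    exact hf t h
  rw [h, map_zero, norm_zero]

/-- products with bounded functions which are continuous where the first factor is not zero -/
theorem continuous_mul_of {f : K → 𝕜} (hf : Continuous f) {a : K → ℝ}
    (ha : ∀ t, f t ≠ 0 → ContinuousAt a t) (hb : ∀ t, |a t| ≤ 1) :
    Continuous fun t => (a t : 𝕜) * f t := by
  rw [continuous_iff_continuousAt]
  intro t
  by_cases h : f t = 0
  · have h1 : Tendsto (fun s => (a s : 𝕜) * f s) (𝓝 t) (𝓝 0) := by
      have h2 : Tendsto (fun s => ‖f s‖) (𝓝 t) (𝓝 0) := by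
        have h3 := (hf.norm).tendsto t
        simpa [h] using h3
      refine squeeze_zero_norm (fun s => ?_) h2
      rw [norm_mul, RCLike.norm_ofReal]
      have h3 := hb s
      have h4 := norm_nonneg (f s)
      nlinarith [abs_nonneg (a s)]
    rw [ContinuousAt]
    have h2 : (a t : 𝕜) * f t = 0 := by rw [h, mul_zero]
    rw [h2]
    exact h1
  · exact (RCLike.continuous_ofReal.continuousAt.comp (ha t h)).mul hf.continuousAt

theorem Bd.union {θ : C(K, 𝕜) →ₗ[𝕜] B} {φ ψ : K → ℝ} (hφ : Continuous φ) (hψ : Continuous ψ)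
    (hφ0 : ∀ t, 0 ≤ φ t) (hψ0 : ∀ t, 0 ≤ ψ t) (h1 : Bd θ (fun t => φ t ≠ 0))
    (h2 : Bd θ (fun t => ψ t ≠ 0)) : Bd θ (fun t => φ t + ψ t ≠ 0) := by
  obtain ⟨M, hM⟩ := h1
  obtain ⟨N, hN⟩ := h2
  refine ⟨M + N, fun f hf hf' => ?_⟩
  have hc : ∀ t, f t ≠ 0 → ContinuousAt (fun t => φ t / (φ t + ψ t)) t := fun t ht =>
    hφ.continuousAt.div (hφ.add hψ).continuousAt (hf' t ht)
  have hc' : ∀ t, f t ≠ 0 → ContinuousAt (fun t => ψ t / (φ t + ψ t)) t := fun t ht =>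
    hψ.continuousAt.div (hφ.add hψ).continuousAt (hf' t ht)
  have hb : ∀ t, |φ t / (φ t + ψ t)| ≤ 1 := fun t => by
    rw [abs_of_nonneg (div_nonneg (hφ0 t) (add_nonneg (hφ0 t) (hψ0 t)))]
    exact div_le_one_of_le₀ (by linarith [hψ0 t]) (add_nonneg (hφ0 t) (hψ0 t))
  have hb' : ∀ t, |ψ t / (φ t + ψ t)| ≤ 1 := fun t => by
    rw [abs_of_nonneg (div_nonneg (hψ0 t) (add_nonneg (hφ0 t) (hψ0 t)))]
    exact div_le_one_of_le₀ (by linarith [hφ0 t]) (add_nonneg (hφ0 t) (hψ0 t))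
  let f₁ : C(K, 𝕜) := ⟨_, continuous_mul_of f.continuous hc hb⟩
  let f₂ : C(K, 𝕜) := ⟨_, continuous_mul_of f.continuous hc' hb'⟩
  have e1 : ∀ t, f₁ t = ((φ t / (φ t + ψ t) : ℝ) : 𝕜) * f t := fun _ => rfl
  have e2 : ∀ t, f₂ t = ((ψ t / (φ t + ψ t) : ℝ) : 𝕜) * f t := fun _ => rfl
  have hsum : f = f₁ + f₂ := by
    ext t
    rw [ContinuousMap.add_apply, e1, e2, ← add_mul]
    by_cases h : f t = 0
    · rw [h, mul_zero]
    · have h3 := hf' t h
      rw [← RCLike.ofReal_add, ← add_div, div_self h3, RCLike.ofReal_one, one_mul]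
  have hn1 : ‖f₁‖ ≤ 1 := by
    rw [ContinuousMap.norm_le _ zero_le_one]
    intro t
    rw [e1, norm_mul, RCLike.norm_ofReal]
    have h3 := (f.norm_coe_le_norm t).trans hf
    nlinarith [hb t, abs_nonneg (φ t / (φ t + ψ t)), norm_nonneg (f t)]
  have hn2 : ‖f₂‖ ≤ 1 := by
    rw [ContinuousMap.norm_le _ zero_le_one]
    intro t
    rw [e2, norm_mul, RCLike.norm_ofReal]
    have h3 := (f.norm_coe_le_norm t).trans hf
    nlinarith [hb' t, abs_nonneg (ψ t / (φ t + ψ t)), norm_nonneg (f t)]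
  have h3 := hM f₁ hn1 fun t ht h0 => ht (by rw [e1, h0]; simp)
  have h4 := hN f₂ hn2 fun t ht h0 => ht (by rw [e2, h0]; simp)
  rw [hsum, map_add]
  exact (norm_add_le _ _).trans (add_le_add h3 h4)

theorem Bd.finset_sum {θ : C(K, 𝕜) →ₗ[𝕜] B} {ι : Type*} (s : Finset ι) (φ : ι → K → ℝ)
    (hφ : ∀ i, Continuous (φ i)) (hφ0 : ∀ i t, 0 ≤ φ i t)
    (h : ∀ i ∈ s, Bd θ (fun t => φ i t ≠ 0)) : Bd θ (fun t => ∑ i ∈ s, φ i t ≠ 0) := by
  classical
  induction s using Finset.induction_on with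
  | empty =>
    refine (Bd.false θ).mono fun t ht => ?_
    simp at ht
  | insert i s hi ih =>
    have h1 := ih fun j hj => h j (Finset.mem_insert_of_mem hj)
    have h2 := h i (Finset.mem_insert_self i s)
    have h3 := Bd.union (hφ i) (continuous_finsetSum s fun j _ => hφ j) (hφ0 i)
      (fun t => Finset.sum_nonneg fun j _ => hφ0 j t) h2 h1
    refine h3.mono fun t ht => ?_
    rwa [Finset.sum_insert hi] at ht

/-- `w ↦ w / √‖w‖` -/
theorem continuous_half : Continuous fun w : 𝕜 => w / ((√‖w‖ : ℝ) : 𝕜) := by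
  rw [continuous_iff_continuousAt]
  intro w
  by_cases h : w = 0
  · subst h
    have h1 : Tendsto (fun s : 𝕜 => s / ((√‖s‖ : ℝ) : 𝕜)) (𝓝 0) (𝓝 0) := by
      have h2 : Tendsto (fun s : 𝕜 => √‖s‖) (𝓝 0) (𝓝 0) := by
        have h3 : Continuous fun s : 𝕜 => √‖s‖ := Real.continuous_sqrt.comp continuous_norm
        simpa using h3.tendsto 0
      refine squeeze_zero_norm (fun s => ?_) h2
      rw [norm_div, RCLike.norm_ofReal, abs_of_nonneg (Real.sqrt_nonneg _)]
      rw [Real.div_sqrt]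
    rw [ContinuousAt]
    simpa using h1
  · refine continuousAt_id.div ?_ ?_
    · exact (RCLike.continuous_ofReal.comp (Real.continuous_sqrt.comp continuous_norm)).continuousAt
    · rw [Ne, RCLike.ofReal_eq_zero, Real.sqrt_eq_zero (norm_nonneg _)]
      exact norm_ne_zero_iff.2 h

theorem half_mul (w : 𝕜) : ((√‖w‖ : ℝ) : 𝕜) * (w / ((√‖w‖ : ℝ) : 𝕜)) = w := by
  by_cases h : w = 0
  · subst h
    simp
  · have h1 : ((√‖w‖ : ℝ) : 𝕜) ≠ 0 := by
      rw [Ne, RCLike.ofReal_eq_zero, Real.sqrt_eq_zero (norm_nonneg _)]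
      exact norm_ne_zero_iff.2 h
    field_simp

/-- The theorem of Bade and Curtis: a multiplicative linear map cannot be unbounded on infinitely
many pairwise disjoint sets. -/
theorem not_all_unbounded (θ : C(K, 𝕜) →ₗ[𝕜] B) (hmul : ∀ f g, θ (f * g) = θ f * θ g)
    (U : ℕ → K → Prop) (hU : ∀ i j t, U i t → U j t → i = j) : ∃ i, Bd θ (U i) := by
  by_contra hcon
  push Not at hcon
  have h1 : ∀ i j : ℕ, ∃ x : C(K, 𝕜), ‖x‖ ≤ 1 ∧ (∀ t, x t ≠ 0 → U (Nat.pair i j) t) ∧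
      (4 : ℝ) ^ (i + j) < ‖θ x‖ := by
    intro i j
    have h2 := hcon (Nat.pair i j)
    unfold Bd at h2
    push Not at h2
    obtain ⟨x, hx1, hx2, hx3⟩ := h2 ((4 : ℝ) ^ (i + j))
    exact ⟨x, hx1, hx2, hx3⟩
  choose x hx1 hx2 hx3 using h1
  -- the factors
  let y : ℕ → ℕ → C(K, 𝕜) := fun i j => ⟨fun t => ((√‖x i j t‖ : ℝ) : 𝕜),
    RCLike.continuous_ofReal.comp (Real.continuous_sqrt.comp (x i j).continuous.norm)⟩
  let z : ℕ → ℕ → C(K, 𝕜) := fun i j => ⟨fun t => x i j t / ((√‖x i j t‖ : ℝ) : 𝕜),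
    continuous_half.comp (x i j).continuous⟩
  have ey : ∀ i j t, y i j t = ((√‖x i j t‖ : ℝ) : 𝕜) := fun _ _ _ => rfl
  have ez : ∀ i j t, z i j t = x i j t / ((√‖x i j t‖ : ℝ) : 𝕜) := fun _ _ _ => rfl
  have hxt : ∀ i j t, ‖x i j t‖ ≤ 1 := fun i j t => ((x i j).norm_coe_le_norm t).trans (hx1 i j)
  have hy : ∀ i j, ‖y i j‖ ≤ 1 := by
    intro i j
    rw [ContinuousMap.norm_le _ zero_le_one]
    intro t
    rw [ey, RCLike.norm_ofReal, abs_of_nonneg (Real.sqrt_nonneg _)]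
    exact Real.sqrt_le_one.2 (hxt i j t)
  have hz : ∀ i j, ‖z i j‖ ≤ 1 := by
    intro i j
    rw [ContinuousMap.norm_le _ zero_le_one]
    intro t
    rw [ez, norm_div, RCLike.norm_ofReal, abs_of_nonneg (Real.sqrt_nonneg _), Real.div_sqrt]
    exact Real.sqrt_le_one.2 (hxt i j t)
  have hy0 : ∀ i j t, y i j t ≠ 0 → x i j t ≠ 0 := by
    intro i j t h h0
    apply h
    rw [ey, h0]
    simp
  have hz0 : ∀ i j t, z i j t ≠ 0 → x i j t ≠ 0 := by
    intro i j t h h0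
    apply h
    rw [ez, h0]
    simp
  have huniq : ∀ i j i' j' t, x i j t ≠ 0 → x i' j' t ≠ 0 → i = i' ∧ j = j' := by
    intro i j i' j' t h h'
    have h2 := hU _ _ t (hx2 i j t h) (hx2 i' j' t h')
    exact Nat.pair_eq_pair.1 h2
  -- the first sums
  have hsy : ∀ i, Summable fun j : ℕ => (((1 / 2 : ℝ) ^ j : ℝ) : 𝕜) • y i j := by
    intro i
    refine Summable.of_norm_bounded (g := fun j : ℕ => (1 / 2 : ℝ) ^ j) summable_geometric_two ?_
    intro j
    rw [norm_smul, RCLike.norm_ofReal, abs_of_nonneg (by positivity)]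
    have := hy i j
    have h5 : (0 : ℝ) ≤ (1 / 2) ^ j := by positivity
    nlinarith
  let F : ℕ → C(K, 𝕜) := fun i => ∑' j, (((1 / 2 : ℝ) ^ j : ℝ) : 𝕜) • y i j
  have eF : ∀ i t, F i t = ∑' j, (((1 / 2 : ℝ) ^ j : ℝ) : 𝕜) * y i j t := by
    intro i t
    have h5 := ContinuousMap.tsum_apply (hsy i) t
    rw [← h5]
    rfl
  have hn : ∀ i, ∃ n : ℕ, ‖θ (F i)‖ ≤ 2 ^ n := by
    intro i
    obtain ⟨n, hn⟩ := exists_nat_gt ‖θ (F i)‖
    refine ⟨n, hn.le.trans ?_⟩
    exact_mod_cast (Nat.lt_two_pow_self).le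
  choose n hn using hn
  have hsz : Summable fun i : ℕ => (((1 / 2 : ℝ) ^ i : ℝ) : 𝕜) • z i (n i) := by
    refine Summable.of_norm_bounded (g := fun j : ℕ => (1 / 2 : ℝ) ^ j) summable_geometric_two ?_
    intro j
    rw [norm_smul, RCLike.norm_ofReal, abs_of_nonneg (by positivity)]
    have := hz j (n j)
    have h5 : (0 : ℝ) ≤ (1 / 2) ^ j := by positivity
    nlinarith
  let w : C(K, 𝕜) := ∑' i, (((1 / 2 : ℝ) ^ i : ℝ) : 𝕜) • z i (n i)
  have ew : ∀ t, w t = ∑' i, (((1 / 2 : ℝ) ^ i : ℝ) : 𝕜) * z i (n i) t := by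
    intro t
    have h5 := ContinuousMap.tsum_apply hsz t
    rw [← h5]
    rfl
  have key : ∀ i, F i * w = (((1 / 2 : ℝ) ^ (i + n i) : ℝ) : 𝕜) • x i (n i) := by
    intro i
    ext t
    rw [ContinuousMap.mul_apply, ContinuousMap.smul_apply, smul_eq_mul]
    by_cases h : x i (n i) t = 0
    · rw [h, mul_zero]
      by_contra hne
      have h2 : F i t ≠ 0 := left_ne_zero_of_mul hne
      have h3 : w t ≠ 0 := right_ne_zero_of_mul hne
      have h4 : ∃ j, y i j t ≠ 0 := by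
        by_contra hc
        push Not at hc
        apply h2
        rw [eF]
        simp [hc]
      have h5 : ∃ i', z i' (n i') t ≠ 0 := by
        by_contra hc
        push Not at hc
        apply h3
        rw [ew]
        simp [hc]
      obtain ⟨j, hj⟩ := h4
      obtain ⟨i', hi'⟩ := h5
      obtain ⟨h6, h7⟩ := huniq _ _ _ _ t (hy0 _ _ _ hj) (hz0 _ _ _ hi')
      subst h6
      subst h7
      exact hy0 _ _ _ hj h
    · have h2 : F i t = (((1 / 2 : ℝ) ^ (n i) : ℝ) : 𝕜) * y i (n i) t := by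
        rw [eF]
        refine tsum_eq_single (n i) fun j hj => ?_
        have h3 : y i j t = 0 := by
          by_contra hc
          exact hj (huniq _ _ _ _ t (hy0 _ _ _ hc) h).2
        rw [h3, mul_zero]
      have h3 : w t = (((1 / 2 : ℝ) ^ i : ℝ) : 𝕜) * z i (n i) t := by
        rw [ew]
        refine tsum_eq_single i fun j hj => ?_
        have h3 : z j (n j) t = 0 := by
          by_contra hc
          exact hj (huniq _ _ _ _ t (hz0 _ _ _ hc) h).1
        rw [h3, mul_zero]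
      rw [h2, h3, pow_add, RCLike.ofReal_mul]
      have h4 : y i (n i) t * z i (n i) t = x i (n i) t := by
        rw [ey, ez]
        exact half_mul _
      rw [← h4]
      ring
  have hbig : ∀ i : ℕ, (2 : ℝ) ^ i < ‖θ w‖ := by
    intro i
    have h2 : ‖θ (F i * w)‖ ≤ 2 ^ n i * ‖θ w‖ := by
      rw [hmul]
      exact (norm_mul_le _ _).trans (mul_le_mul_of_nonneg_right (hn i) (norm_nonneg _))
    have h3 : (2 : ℝ) ^ (i + n i) < ‖θ (F i * w)‖ := by
      rw [key, map_smul, norm_smul, RCLike.norm_ofReal, abs_of_nonneg (by positivity)]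
      have h4 := hx3 i (n i)
      have h5 : (2 : ℝ) ^ (i + n i) = (1 / 2) ^ (i + n i) * 4 ^ (i + n i) := by
        rw [← mul_pow]
        norm_num
      rw [h5]
      exact mul_lt_mul_of_pos_left h4 (by positivity)
    have h4 : (2 : ℝ) ^ i * 2 ^ n i < ‖θ w‖ * 2 ^ n i := by
      rw [← pow_add]
      linarith
    exact lt_of_mul_lt_mul_right h4 (by positivity)
  obtain ⟨m, hm⟩ := exists_nat_gt ‖θ w‖
  have h6 : (m : ℝ) ≤ 2 ^ m := by exact_mod_cast (Nat.lt_two_pow_self).le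
  linarith [hbig m]

end Pool.Agent.TH774.KP
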