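import Mathlib

set_option autoImplicit false

/-! Ideals with the property of Baire: interval partitions with positive infinite unions
(Talagrand, Jalali-Naini); the proof is the one of the starting file `S15133`, for the property of
Baire in place of Borel measurability. -/

namespace Pool.Agent.TH774.KP

open Set Filter Topology

theorem exists_cylinder_subset {β : Type*} [TopologicalSpace β] [DiscreteTopology β]
    {U : Set (ℕ → β)} (hU : IsOpen U) {x : ℕ → β} (hx : x ∈ U) :
    ∃ k, ∀ y : ℕ → β, (∀ i < k, y i = x i) → y ∈ U := by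
  obtain ⟨s, ⟨y, n, rfl⟩, hxs, hsU⟩ :=
    (PiNat.isTopologicalBasis_cylinders (fun _ : ℕ => β)).exists_subset_of_mem_open hx hU
  refine ⟨n, fun z hz => hsU ?_⟩
  rw [PiNat.mem_cylinder_iff] at hxs ⊢
  intro i hi
  rw [hz i hi, hxs i hi]

/-- flip all coordinates from `k` on -/
def flipH (k : ℕ) : (ℕ → Bool) ≃ₜ (ℕ → Bool) where
  toFun x := fun n => if n < k then x n else !(x n)
  invFun x := fun n => if n < k then x n else !(x n)
  left_inv x := by
    funext n
    by_cases h : n < k <;> simp [h]
  right_inv x := by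
    funext n
    by_cases h : n < k <;> simp [h]
  continuous_toFun := by
    refine continuous_pi fun n => ?_
    by_cases h : n < k
    · simpa [h] using continuous_apply n
    · simp only [h, if_false]
      exact (continuous_of_discreteTopology (f := fun b : Bool => !b)).comp (continuous_apply n)
  continuous_invFun := by
    refine continuous_pi fun n => ?_
    by_cases h : n < k
    · simpa [h] using continuous_apply n
    · simp only [h, if_false]
      exact (continuous_of_discreteTopology (f := fun b : Bool => !b)).comp (continuous_apply n)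

theorem flipH_apply_lt {k n : ℕ} (x : ℕ → Bool) (h : n < k) : flipH k x n = x n := by
  simp [flipH, h]

theorem flipH_apply_ge {k n : ℕ} (x : ℕ → Bool) (h : ¬ n < k) : flipH k x n = !(x n) := by
  simp [flipH, h]

section
variable (I : Set (Set ℕ))
    (hdown : ∀ A ∈ I, ∀ B : Set ℕ, B ⊆ A → B ∈ I)
    (hunion : ∀ A ∈ I, ∀ B ∈ I, A ∪ B ∈ I)
    (hfin : ∀ A : Set ℕ, A.Finite → A ∈ I)
    (hproper : (Set.univ : Set ℕ) ∉ I)
    (hB : BaireMeasurableSet {x : ℕ → Bool | {n : ℕ | x n = true} ∈ I})

include hunion hfin hproper hB in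
theorem eventually_not_mem :
    ∀ᶠ x in residual (ℕ → Bool), {n : ℕ | x n = true} ∉ I := by
  obtain ⟨U, hU, hIU⟩ := hB.residualEq_isOpen
  rw [Filter.eventuallyEq_set] at hIU
  by_cases hne : U.Nonempty
  · exfalso
    obtain ⟨x0, hx0⟩ := hne
    obtain ⟨k, hk⟩ := exists_cylinder_subset hU hx0
    have h2 : ∀ᶠ x in residual (ℕ → Bool),
        (flipH k x ∈ {x : ℕ → Bool | {n : ℕ | x n = true} ∈ I} ↔ flipH k x ∈ U) :=
      (tendsto_residual_of_isOpenMap (flipH k).continuous (flipH k).isOpenMap).eventually hIU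
    have h3 := hIU.and h2
    have hopen : IsOpen (PiNat.cylinder x0 k) := PiNat.isOpen_cylinder _ x0 k
    obtain ⟨x, hxc, hx1, hx2⟩ := (dense_of_mem_residual h3).inter_open_nonempty _ hopen
      ⟨x0, PiNat.self_mem_cylinder x0 k⟩
    rw [PiNat.mem_cylinder_iff] at hxc
    have hxU : x ∈ U := hk x hxc
    have hfU : flipH k x ∈ U := hk _ (fun i hi => by rw [flipH_apply_lt x hi, hxc i hi])
    have hm1 := hx1.2 hxU
    have hm2 := hx2.2 hfU
    simp only [Set.mem_setOf_eq] at hm1 hm2
    have h4 := hunion _ (hunion _ hm1 _ hm2) _ (hfin (Set.Iio k) (Set.finite_Iio k))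
    apply hproper
    convert h4
    symm
    rw [Set.eq_univ_iff_forall]
    intro n
    by_cases hn : n < k
    · exact Or.inr hn
    · left
      by_cases hxn : x n = true
      · exact Or.inl hxn
      · right
        show flipH k x n = true
        rw [flipH_apply_ge x hn]
        simpa using hxn
  · rw [Set.not_nonempty_iff_eq_empty] at hne
    subst hne
    filter_upwards [hIU] with x hx
    simpa using hx

end

/-- one step: a finite pattern on `[m,m')` forcing membership in a dense open set, uniformly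
over a finset of initial parts -/
theorem pattern_step {O : Set (ℕ → Bool)} (hO : IsOpen O) (hd : Dense O) (m : ℕ)
    (T : Finset (Fin m → Bool)) :
    ∃ m' > m, ∃ w : ℕ → Bool, ∀ x : ℕ → Bool, (fun i : Fin m => x i) ∈ T →
      (∀ n, m ≤ n → n < m' → x n = w n) → x ∈ O := by
  classical
  induction T using Finset.induction_on with
  | empty => exact ⟨m + 1, Nat.lt_succ_self m, fun _ => true, by simp⟩
  | insert σ T _ ih =>
    obtain ⟨m1, hm1, w1, hw1⟩ := ih
    let p : ℕ → Bool := fun n => if h : n < m then σ ⟨n, h⟩ else w1 n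
    obtain ⟨q, hqc, hqO⟩ := hd.inter_open_nonempty _ (PiNat.isOpen_cylinder _ p m1)
      ⟨p, PiNat.self_mem_cylinder p m1⟩
    obtain ⟨k, hk⟩ := exists_cylinder_subset hO hqO
    rw [PiNat.mem_cylinder_iff] at hqc
    refine ⟨max m1 k, lt_of_lt_of_le hm1 (le_max_left _ _), q, fun x hx hxw => ?_⟩
    rw [Finset.mem_insert] at hx
    rcases hx with hx | hx
    · apply hk
      intro i hi
      by_cases him : i < m
      · have h1 : x i = σ ⟨i, him⟩ := congrFun hx ⟨i, him⟩
        rw [h1, hqc i (lt_trans him hm1)]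
        simp [p, him]
      · exact hxw i (not_lt.1 him) (lt_of_lt_of_le hi (le_max_right _ _))
    · apply hw1 x hx
      intro n hn1 hn2
      rw [hxw n hn1 (lt_of_lt_of_le hn2 (le_max_left _ _)), hqc n hn2]
      simp [p, not_lt.2 hn1]

theorem pattern_step' {O : Set (ℕ → Bool)} (hO : IsOpen O) (hd : Dense O) (m : ℕ) :
    ∃ m' > m, ∃ w : ℕ → Bool, ∀ x : ℕ → Bool,
      (∀ n, m ≤ n → n < m' → x n = w n) → x ∈ O := by
  obtain ⟨m', h1, w, hw⟩ := pattern_step hO hd m Finset.univ
  exact ⟨m', h1, w, fun x hx => hw x (Finset.mem_univ _) hx⟩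

/-- Talagrand / Jalali-Naini: an interval partition all of whose infinite unions are positive. -/
theorem exists_partition (I : Set (Set ℕ))
    (hdown : ∀ A ∈ I, ∀ B : Set ℕ, B ⊆ A → B ∈ I)
    (hunion : ∀ A ∈ I, ∀ B ∈ I, A ∪ B ∈ I)
    (hfin : ∀ A : Set ℕ, A.Finite → A ∈ I)
    (hproper : (Set.univ : Set ℕ) ∉ I)
    (hB : BaireMeasurableSet {x : ℕ → Bool | {n : ℕ | x n = true} ∈ I}) :
    ∃ π : ℕ → ℕ, StrictMono π ∧ ∀ K : Set ℕ, K.Infinite →
      {n | ∃ k ∈ K, π k ≤ n ∧ n < π (k+1)} ∉ I := by
  have hres := eventually_not_mem I hunion hfin hproper hB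
  obtain ⟨S, hSo, hSd, hSc, hS⟩ := mem_residual_iff.1 hres
  -- enumerate
  obtain ⟨f, hf⟩ : ∃ f : ℕ → Set (ℕ → Bool), (∀ n, IsOpen (f n)) ∧ (∀ n, Dense (f n)) ∧
      ⋂ n, f n ⊆ {x | {n : ℕ | x n = true} ∉ I} := by
    rcases S.eq_empty_or_nonempty with rfl | hne
    · refine ⟨fun _ => Set.univ, fun _ => isOpen_univ, fun _ => dense_univ, ?_⟩
      simpa using hS
    · obtain ⟨f, hf⟩ := hSc.exists_eq_range hne
      refine ⟨f, fun n => hSo _ (hf ▸ Set.mem_range_self n), fun n => hSd _ (hf ▸ Set.mem_range_self n), ?_⟩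
      intro x hx
      apply hS
      rw [Set.mem_sInter]
      intro t ht
      rw [hf] at ht
      obtain ⟨n, rfl⟩ := ht
      exact Set.mem_iInter.1 hx n
  obtain ⟨hfo, hfd, hfI⟩ := hf
  -- finite intersections
  let g : ℕ → Set (ℕ → Bool) := fun k => ⋂ j ∈ Finset.range (k+1), f j
  have hgo : ∀ k, IsOpen (g k) := fun k => isOpen_biInter_finset (fun j _ => hfo j)
  have hgd : ∀ k, Dense (g k) := by
    intro k
    have hmem : g k ∈ residual (ℕ → Bool) := by
      have : (⋂ j ∈ Finset.range (k+1), f j) ∈ residual (ℕ → Bool) := by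
        rw [Filter.biInter_finset_mem]
        intro j _
        exact residual_of_dense_open (hfo j) (hfd j)
      exact this
    exact dense_of_mem_residual hmem
  choose! nxt hnxt w hw using fun k m => pattern_step' (hgo k) (hgd k) m
  let π : ℕ → ℕ := fun k => Nat.rec (motive := fun _ => ℕ) 0 (fun k m => nxt k m) k
  have hπs : ∀ k, π (k+1) = nxt k (π k) := fun k => rfl
  have hπm : StrictMono π := strictMono_nat_of_lt_succ (fun k => by rw [hπs]; exact hnxt k (π k))
  refine ⟨π, hπm, fun K hK hmem => ?_⟩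
  let Px : ℕ → Prop := fun n => ∃ k ∈ K, π k ≤ n ∧ n < π (k+1) ∧ w k (π k) n = true
  obtain ⟨x, hx⟩ : ∃ x : ℕ → Bool, ∀ n, x n = true ↔ Px n := by
    classical
    exact ⟨fun n => decide (Px n), fun n => decide_eq_true_iff⟩
  have hx1 : {n : ℕ | x n = true} ∈ I := by
    refine hdown _ hmem _ ?_
    intro n hn
    obtain ⟨k, hk, h1, h2, _⟩ := (hx n).1 hn
    exact ⟨k, hk, h1, h2⟩
  have hx2 : x ∈ ⋂ n, f n := by
    rw [Set.mem_iInter]
    intro j
    obtain ⟨k, hk, hjk⟩ := hK.exists_gt j
    have hxg : x ∈ g k := by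
      apply hw k (π k) x
      intro n hn1 hn2
      rw [← hπs] at hn2
      by_cases hwn : w k (π k) n = true
      · rw [hwn, hx]
        exact ⟨k, hk, hn1, hn2, hwn⟩
      · have h5 : x n = false := by
          rw [← Bool.not_eq_true, hx]
          rintro ⟨k', hk', h1, h2, h3⟩
          have : k' = k := by
            rcases lt_trichotomy k' k with h | h | h
            · exact absurd (lt_of_lt_of_le h2 (hπm.monotone (Nat.succ_le_of_lt h))) (not_lt.2 hn1)
            · exact h
            · exact absurd (lt_of_lt_of_le hn2 (hπm.monotone (Nat.succ_le_of_lt h))) (not_lt.2 h1)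
          subst this
          exact hwn h3
        rw [h5]
        simpa using hwn
    have := Set.mem_iInter₂.1 hxg j (Finset.mem_range.2 (by omega))
    exact this
  exact hfI hx2 hx1

end Pool.Agent.TH774.KP
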