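import Pool.Agent.TH774.KP.Core
import Pool.Agent.TH774.KP.Part

set_option autoImplicit false

/-! Kaplansky's question: if the families of sets of natural numbers attached to a multiplicative
linear map `θ` from `C(K, 𝕜)` into a normed algebra have the property of Baire, then `θ` is
bounded. -/

namespace Pool.Agent.TH774.KP

open Topology Filter Set

variable {K : Type*} [TopologicalSpace K] [CompactSpace K] [T2Space K] {𝕜 : Type*} [RCLike 𝕜]
  {B : Type*} [NonUnitalNormedRing B] [NormedSpace 𝕜 B]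

/-- the points near which `θ` is unbounded -/
def Sing (θ : C(K, 𝕜) →ₗ[𝕜] B) : Set K :=
  {p | ∀ φ : K → ℝ, Continuous φ → (∀ t, 0 ≤ φ t) → φ p ≠ 0 → ¬ Bd θ (fun t => φ t ≠ 0)}

theorem bd_of_compact {θ : C(K, 𝕜) →ₗ[𝕜] B} {C : Set K} (hC : IsCompact C)
    (h : ∀ p ∈ C, p ∉ Sing θ) : Bd θ (fun t => t ∈ C) := by
  have h1 : ∀ p : K, ∃ φ : K → ℝ, Continuous φ ∧ (∀ t, 0 ≤ φ t) ∧ (p ∈ C → φ p ≠ 0) ∧
      Bd θ (fun t => φ t ≠ 0) := by
    intro p
    by_cases hp : p ∈ C
    · have h2 := h p hp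
      unfold Sing at h2
      rw [Set.mem_setOf_eq] at h2
      push Not at h2
      obtain ⟨φ, h3, h4, h5, h6⟩ := h2
      exact ⟨φ, h3, h4, fun _ => h5, h6⟩
    · refine ⟨fun _ => 0, continuous_const, fun _ => le_rfl, fun h => absurd h hp, ?_⟩
      refine (Bd.false θ).mono fun t ht => ?_
      exact ht rfl
  choose φ h2 h3 h4 h5 using h1
  obtain ⟨s, hs⟩ := hC.elim_finite_subcover (fun p : K => {t | φ p t ≠ 0})
    (fun p => isOpen_ne_fun (h2 p) continuous_const) (fun p hp => mem_iUnion.2 ⟨p, h4 p hp⟩)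
  have h6 := Bd.finset_sum s φ h2 h3 fun i _ => h5 i
  refine h6.mono fun t ht => ?_
  obtain ⟨i, hi, hit⟩ := mem_iUnion₂.1 (hs ht)
  have h7 : 0 < ∑ i ∈ s, φ i t := by
    refine Finset.sum_pos' (fun j _ => h3 j t) ⟨i, hi, ?_⟩
    exact lt_of_le_of_ne (h3 i t) (Ne.symm hit)
  exact h7.ne'

/-- Urysohn's lemma -/
theorem bump {p : K} {W : Set K} (hW : IsOpen W) (hp : p ∈ W) :
    ∃ e : C(K, ℝ), tsupport e ⊆ W ∧ e p = 1 ∧ ∀ t, e t ∈ Icc (0 : ℝ) 1 := by
  obtain ⟨e, h1, h2, h3⟩ := exists_tsupport_one_of_isOpen_isClosed (X := K) (s := W) (t := {p}) hW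
    isClosed_closure.isCompact isClosed_singleton (singleton_subset_iff.2 hp)
  exact ⟨e, h1, h2 (mem_singleton p), h3⟩

theorem unbounded_of_mem {θ : C(K, 𝕜) →ₗ[𝕜] B} {p : K} (hp : p ∈ Sing θ) {W : Set K}
    (hW : IsOpen W) (hpW : p ∈ W) : ¬ Bd θ (fun t => t ∈ W) := by
  intro h
  obtain ⟨e, h1, h2, h3⟩ := bump hW hpW
  refine hp e e.continuous (fun t => (h3 t).1) (by rw [h2]; norm_num) (h.mono fun t ht => h1 ?_)
  exact subset_tsupport _ ht

/-- Some singular point is isolated. -/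
theorem exists_isolated (θ : C(K, 𝕜) →ₗ[𝕜] B) (hmul : ∀ f g, θ (f * g) = θ f * θ g)
    (hS : (Sing θ).Nonempty) : ∃ p ∈ Sing θ, ∃ W : Set K, IsOpen W ∧ p ∈ W ∧
      ∀ q ∈ W, q ∈ Sing θ → q = p := by
  by_contra hcon
  push Not at hcon
  let X := {O : Set K // IsOpen O ∧ (O ∩ Sing θ).Nonempty}
  have step : ∀ O : X, ∃ V O' : X, V.1 ⊆ O.1 ∧ O'.1 ⊆ O.1 ∧ ∀ t, t ∈ V.1 → t ∈ O'.1 → False := by
    rintro ⟨O, hO, p, hpO, hpS⟩
    obtain ⟨q, hqO, hqS, hqp⟩ := hcon p hpS O hO hpO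
    obtain ⟨V, V', h1, h2, h3, h4, h5⟩ := t2_separation hqp
    refine ⟨⟨V ∩ O, h1.inter hO, q, ⟨h3, hqO⟩, hqS⟩, ⟨V' ∩ O, h2.inter hO, p, ⟨h4, hpO⟩, hpS⟩,
      inter_subset_right, inter_subset_right, fun t ht ht' => ?_⟩
    exact Set.disjoint_left.1 h5 ht.1 ht'.1
  choose F G hF hG hFG using step
  obtain ⟨p₀, hp₀⟩ := hS
  let O : ℕ → X := fun k => Nat.rec (motive := fun _ => X) ⟨univ, isOpen_univ, p₀, mem_univ _, hp₀⟩
    (fun _ o => G o) k
  have hO : ∀ k, O (k + 1) = G (O k) := fun _ => rfl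
  have hdec : ∀ i j, i ≤ j → (O j).1 ⊆ (O i).1 := by
    intro i j hij
    induction j, hij using Nat.le_induction with
    | base => exact Subset.rfl
    | succ j _ ih =>
      rw [hO]
      exact (hG _).trans ih
  have hdis : ∀ i j, i < j → ∀ t, t ∈ (F (O i)).1 → t ∈ (F (O j)).1 → False := by
    intro i j hij t h1 h2
    refine hFG (O i) t h1 ?_
    rw [← hO]
    exact hdec _ _ hij (hF _ h2)
  obtain ⟨i, hi⟩ := not_all_unbounded θ hmul (fun i t => t ∈ (F (O i)).1) fun i j t h1 h2 => by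
    rcases lt_trichotomy i j with h | h | h
    · exact (hdis i j h t h1 h2).elim
    · exact h
    · exact (hdis j i h t h2 h1).elim
  obtain ⟨q, hq, hqS⟩ := (F (O i)).2.2
  exact unbounded_of_mem hqS (F (O i)).2.1 hq hi

/-- the ideal attached to a sequence of open sets -/
def JJ (θ : C(K, 𝕜) →ₗ[𝕜] B) (W : ℕ → Set K) : Set (Set ℕ) :=
  {A | Bd θ (fun t => ∃ n ∈ A, t ∈ W n)}

theorem main (θ : C(K, 𝕜) →ₗ[𝕜] B) (hmul : ∀ f g, θ (f * g) = θ f * θ g)
    (hB : ∀ W : ℕ → Set K, (∀ n, IsOpen (W n)) →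
      BaireMeasurableSet {x : ℕ → Bool | {n : ℕ | x n = true} ∈ JJ θ W}) :
    Bd θ (fun _ => True) := by
  by_contra hun
  have hS : (Sing θ).Nonempty := by
    by_contra hS
    rw [Set.not_nonempty_iff_eq_empty] at hS
    have h1 := bd_of_compact (θ := θ) isCompact_univ fun p _ hp => by
      rw [hS] at hp
      exact hp
    exact hun (h1.mono fun t _ => mem_univ t)
  obtain ⟨p, hpS, W₀, hW₀, hpW₀, hiso⟩ := exists_isolated θ hmul hS
  obtain ⟨e, he1, he2, he3⟩ := bump hW₀ hpW₀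
  -- functions with large images
  have hbad : ¬ Bd θ (fun t => e t ≠ 0) :=
    hpS e e.continuous (fun t => (he3 t).1) (by rw [he2]; norm_num)
  have h1 : ∀ j : ℕ, ∃ f : C(K, 𝕜), ‖f‖ ≤ 1 ∧ (∀ t, f t ≠ 0 → e t ≠ 0) ∧ (j : ℝ) < ‖θ f‖ := by
    intro j
    unfold Bd at hbad
    push Not at hbad
    exact hbad j
  choose f hf1 hf2 hf3 using h1
  have hft : ∀ j t, ‖f j t‖ ≤ 1 := fun j t => ((f j).norm_coe_le_norm t).trans (hf1 j)
  -- the function `h`
  have hbd : ∀ j t, ‖(1 / 2 : ℝ) ^ j * ‖f j t - f j p‖‖ ≤ (1 / 2 : ℝ) ^ j * 2 := by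
    intro j t
    rw [norm_mul, norm_norm, Real.norm_eq_abs, abs_of_nonneg (by positivity)]
    refine mul_le_mul_of_nonneg_left ?_ (by positivity)
    have h2 := norm_sub_le (f j t) (f j p)
    linarith [hft j t, hft j p]
  have hsg : Summable fun j : ℕ => (1 / 2 : ℝ) ^ j * 2 := summable_geometric_two.mul_right 2
  have hsum : ∀ t, Summable fun j : ℕ => (1 / 2 : ℝ) ^ j * ‖f j t - f j p‖ := fun t =>
    Summable.of_norm_bounded hsg fun j => hbd j t
  let g : K → ℝ := fun t => ∑' j, (1 / 2 : ℝ) ^ j * ‖f j t - f j p‖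
  have hg : Continuous g := continuous_tsum
    (fun j => continuous_const.mul (((f j).continuous.sub continuous_const).norm)) hsg hbd
  have hg0 : ∀ t, 0 ≤ g t := fun t => tsum_nonneg fun j => by positivity
  let h : K → ℝ := fun t => (1 - e t) + g t
  have eh : ∀ t, h t = (1 - e t) + g t := fun _ => rfl
  have hh : Continuous h := (continuous_const.sub e.continuous).add hg
  have hh0 : ∀ t, 0 ≤ h t := fun t => add_nonneg (by linarith [(he3 t).2]) (hg0 t)
  have hhp : h p = 0 := by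
    rw [eh, he2]
    simp [g]
  have hh1 : ∀ t, h t = 0 → e t = 1 ∧ ∀ j, f j t = f j p := by
    intro t ht
    have h2 := (he3 t).2
    have h3 := hg0 t
    rw [eh] at ht
    have h4 : g t = 0 := by linarith
    refine ⟨by linarith, fun j => ?_⟩
    have h5 : (1 / 2 : ℝ) ^ j * ‖f j t - f j p‖ ≤ g t :=
      (hsum t).le_tsum j fun i _ => by positivity
    rw [h4] at h5
    have h6 : (0 : ℝ) < (1 / 2) ^ j := by positivity
    have h7 : ‖f j t - f j p‖ ≤ 0 := by
      by_contra hc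
      push Not at hc
      nlinarith [mul_pos h6 hc]
    exact sub_eq_zero.1 (norm_le_zero_iff.1 h7)
  -- the annuli
  let τ : ℕ → K → ℝ := fun n t => e t * max 0 (h t - |1 - n * h t|)
  have eτ : ∀ n t, τ n t = e t * max 0 (h t - |1 - n * h t|) := fun _ _ => rfl
  have hτc : ∀ n, Continuous (τ n) := fun n => e.continuous.mul
    (continuous_const.max (hh.sub (continuous_const.sub (continuous_const.mul hh)).abs))
  have hτ0 : ∀ n t, 0 ≤ τ n t := fun n t => mul_nonneg (he3 t).1 (le_max_left _ _)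
  have hτ1 : ∀ n t, τ n t ≠ 0 ↔ e t ≠ 0 ∧ |1 - n * h t| < h t := by
    intro n t
    rw [eτ, mul_ne_zero_iff]
    refine and_congr Iff.rfl ⟨fun h2 => ?_, fun h2 => ?_⟩
    · by_contra hc
      push Not at hc
      exact h2 (max_eq_left (by linarith))
    · rw [max_eq_right (by linarith)]
      linarith
  let W : ℕ → Set K := fun n => {t | τ n t ≠ 0}
  have hWo : ∀ n, IsOpen (W n) := fun n => isOpen_ne_fun (hτc n) continuous_const
  have hW : ∀ n t, t ∈ W n ↔ e t ≠ 0 ∧ |1 - n * h t| < h t := hτ1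
  -- the ideal
  have hdown : ∀ A ∈ JJ θ W, ∀ A' : Set ℕ, A' ⊆ A → A' ∈ JJ θ W := by
    intro A hA A' hAA
    exact Bd.mono hA fun t ⟨n, hn, ht⟩ => ⟨n, hAA hn, ht⟩
  -- cozero functions of the unions
  have hcoz : ∀ A : Set ℕ, ∃ φ : K → ℝ, Continuous φ ∧ (∀ t, 0 ≤ φ t) ∧
      ∀ t, φ t ≠ 0 ↔ ∃ n ∈ A, t ∈ W n := by
    classical
    intro A
    let a : ℕ → K → ℝ := fun n t => (1 / 2 : ℝ) ^ n * (if n ∈ A then min 1 (τ n t) else 0)
    have ha0 : ∀ n t, 0 ≤ a n t := by
      intro n t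
      refine mul_nonneg (by positivity) ?_
      split_ifs
      · exact le_min zero_le_one (hτ0 n t)
      · exact le_rfl
    have ha1 : ∀ n t, ‖a n t‖ ≤ (1 / 2 : ℝ) ^ n := by
      intro n t
      rw [Real.norm_eq_abs, abs_of_nonneg (ha0 n t)]
      have h2 : (0 : ℝ) < (1 / 2) ^ n := by positivity
      have h3 : (if n ∈ A then min 1 (τ n t) else 0) ≤ 1 := by
        split_ifs
        · exact min_le_left _ _
        · exact zero_le_one
      calc a n t ≤ (1 / 2 : ℝ) ^ n * 1 := mul_le_mul_of_nonneg_left h3 h2.le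
        _ = (1 / 2 : ℝ) ^ n := mul_one _
    have ha2 : ∀ n, Continuous (a n) := by
      intro n
      refine continuous_const.mul ?_
      by_cases hn : n ∈ A
      · simp only [hn, if_true]
        exact continuous_const.min (hτc n)
      · simp only [hn, if_false]
        exact continuous_const
    have ha3 : ∀ t, Summable fun n => a n t := fun t =>
      Summable.of_norm_bounded summable_geometric_two fun n => ha1 n t
    refine ⟨fun t => ∑' n, a n t, continuous_tsum ha2 summable_geometric_two ha1,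
      fun t => tsum_nonneg fun n => ha0 n t, fun t => ⟨fun h2 => ?_, ?_⟩⟩
    · by_contra hc
      push Not at hc
      apply h2
      have h3 : ∀ n, a n t = 0 := by
        intro n
        by_cases hn : n ∈ A
        · have h4 : τ n t = 0 := by
            by_contra h5
            exact hc n hn h5
          simp [a, h4]
        · simp [a, hn]
      simp [h3]
    · rintro ⟨n, hn, ht⟩
      have h3 : 0 < a n t := by
        refine mul_pos (by positivity) ?_
        simp only [hn, if_true]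
        exact lt_min zero_lt_one (lt_of_le_of_ne (hτ0 n t) (Ne.symm ht))
      exact ((ha3 t).tsum_pos (fun i => ha0 i t) n h3).ne'
  have hunion : ∀ A ∈ JJ θ W, ∀ A' ∈ JJ θ W, A ∪ A' ∈ JJ θ W := by
    intro A hA A' hA'
    obtain ⟨φ, h2, h3, h4⟩ := hcoz A
    obtain ⟨ψ, h5, h6, h7⟩ := hcoz A'
    have h8 : Bd θ (fun t => φ t ≠ 0) := Bd.mono hA fun t ht => (h4 t).1 ht
    have h9 : Bd θ (fun t => ψ t ≠ 0) := Bd.mono hA' fun t ht => (h7 t).1 ht
    refine Bd.mono (Bd.union h2 h5 h3 h6 h8 h9) ?_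
    rintro t ⟨n, hn | hn, ht⟩
    · have h10 : φ t ≠ 0 := (h4 t).2 ⟨n, hn, ht⟩
      have h11 : 0 < φ t := lt_of_le_of_ne (h3 t) (Ne.symm h10)
      exact (add_pos_of_pos_of_nonneg h11 (h6 t)).ne'
    · have h10 : ψ t ≠ 0 := (h7 t).2 ⟨n, hn, ht⟩
      have h11 : 0 < ψ t := lt_of_le_of_ne (h6 t) (Ne.symm h10)
      exact (add_pos_of_nonneg_of_pos (h3 t) h11).ne'
  have hfin : ∀ A : Set ℕ, A.Finite → A ∈ JJ θ W := by
    intro A hA
    obtain ⟨N, hN⟩ := hA.bddAbove
    -- the closed set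
    let C : Set K := {t | 1 ≤ (N + 1 : ℝ) * h t} ∩ tsupport e
    have hC : IsClosed C :=
      (isClosed_le continuous_const (continuous_const.mul hh)).inter (isClosed_tsupport _)
    have h2 := bd_of_compact (θ := θ) hC.isCompact fun q hq hqS => by
      have h3 := hiso q (he1 hq.2) hqS
      subst h3
      have h4 : (1 : ℝ) ≤ (N + 1 : ℝ) * h q := hq.1
      rw [hhp] at h4
      linarith
    refine Bd.mono h2 ?_
    rintro t ⟨n, hn, ht⟩
    rw [hW] at ht
    refine ⟨?_, subset_tsupport _ ht.1⟩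
    have h3 : (n : ℝ) ≤ N := by exact_mod_cast hN hn
    have h4 := (abs_lt.1 ht.2).2
    have h5 := hh0 t
    change (1 : ℝ) ≤ (N + 1 : ℝ) * h t
    nlinarith
  have hproper : (Set.univ : Set ℕ) ∉ JJ θ W := by
    rintro ⟨M, hM⟩
    let e' : C(K, 𝕜) := ⟨fun t => (e t : 𝕜), RCLike.continuous_ofReal.comp e.continuous⟩
    have ee : ∀ t, e' t = (e t : 𝕜) := fun _ => rfl
    have hen : ‖e'‖ ≤ 1 := by
      rw [ContinuousMap.norm_le _ zero_le_one]
      intro t
      rw [ee, RCLike.norm_ofReal, abs_of_nonneg (he3 t).1]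
      exact (he3 t).2
    have h2 : ∀ j : ℕ, ‖θ (((1 / 2 : ℝ) : 𝕜) • (f j - f j p • e'))‖ ≤ M := by
      intro j
      refine hM _ ?_ ?_
      · rw [norm_smul, RCLike.norm_ofReal]
        have h3 : ‖f j - f j p • e'‖ ≤ 1 + 1 := by
          refine (norm_sub_le _ _).trans (add_le_add (hf1 j) ?_)
          rw [norm_smul]
          have h4 := hft j p
          nlinarith [norm_nonneg (f j p), norm_nonneg e']
        rw [abs_of_pos (by norm_num)]
        linarith
      · intro t ht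
        rw [ContinuousMap.smul_apply, ContinuousMap.sub_apply, ContinuousMap.smul_apply,
          smul_eq_mul, smul_eq_mul, ee] at ht
        have h3 : f j t - f j p * (e t : 𝕜) ≠ 0 := right_ne_zero_of_mul ht
        have h4 : e t ≠ 0 := by
          intro h0
          apply h3
          have h5 : f j t = 0 := by
            by_contra h6
            exact hf2 j t h6 h0
          rw [h5, h0]
          simp
        have h5 : h t ≠ 0 := by
          intro h0
          obtain ⟨h6, h7⟩ := hh1 t h0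
          apply h3
          rw [h6, h7 j]
          simp
        have h6 : 0 < h t := lt_of_le_of_ne (hh0 t) (Ne.symm h5)
        refine ⟨⌊1 / h t⌋₊, mem_univ _, (hW _ _).2 ⟨h4, ?_⟩⟩
        have h7 : (⌊1 / h t⌋₊ : ℝ) ≤ 1 / h t := Nat.floor_le (by positivity)
        have h8 : 1 / h t < (⌊1 / h t⌋₊ : ℝ) + 1 := Nat.lt_floor_add_one _
        rw [le_div_iff₀ h6] at h7
        rw [div_lt_iff₀ h6] at h8
        rw [abs_lt]
        constructor <;> nlinarith
    -- contradiction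
    obtain ⟨j, hj⟩ := exists_nat_gt (2 * M + ‖θ e'‖)
    have h3 : f j = (2 : 𝕜) • (((1 / 2 : ℝ) : 𝕜) • (f j - f j p • e')) + f j p • e' := by
      rw [smul_smul]
      have h4 : (2 : 𝕜) * ((1 / 2 : ℝ) : 𝕜) = 1 := by
        push_cast
        norm_num
      rw [h4, one_smul]
      abel
    have h4 : ‖θ (f j)‖ ≤ 2 * M + ‖θ e'‖ := by
      rw [h3, map_add, map_smul, map_smul θ (f j p) e']
      refine (norm_add_le _ _).trans (add_le_add ?_ ?_)
      · rw [norm_smul]
        have h5 : ‖(2 : 𝕜)‖ = 2 := by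
          have : (2 : 𝕜) = ((2 : ℝ) : 𝕜) := by push_cast; rfl
          rw [this, RCLike.norm_ofReal]
          norm_num
        rw [h5]
        exact mul_le_mul_of_nonneg_left (h2 j) (by norm_num)
      · rw [norm_smul]
        have h5 := hft j p
        nlinarith [norm_nonneg (θ e'), norm_nonneg (f j p)]
    linarith [hf3 j]
  -- an interval partition and infinitely many disjoint sets
  obtain ⟨π, hπ, hK⟩ := exists_partition (JJ θ W) hdown hunion hfin hproper (hB W hWo)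
  let κ : ℕ → Set ℕ := fun j => {k | ∃ m : ℕ, k = 2 * Nat.pair j m}
  have hκ : ∀ j, (κ j).Infinite := by
    intro j
    refine Set.infinite_of_injective_forall_mem (f := fun m => 2 * Nat.pair j m) ?_
      fun m => ⟨m, rfl⟩
    intro a b hab
    have h2 : Nat.pair j a = Nat.pair j b := by
      have : 2 * Nat.pair j a = 2 * Nat.pair j b := hab
      omega
    exact (Nat.pair_eq_pair.1 h2).2
  -- distance of the blocks
  have hfar : ∀ j j' a a' : ℕ, j ≠ j' → (∃ k ∈ κ j, π k ≤ a ∧ a < π (k + 1)) →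
      (∃ k ∈ κ j', π k ≤ a' ∧ a' < π (k + 1)) → a + 2 ≤ a' ∨ a' + 2 ≤ a := by
    rintro j j' a a' hjj ⟨k, ⟨m, rfl⟩, h2, h3⟩ ⟨k', ⟨m', rfl⟩, h4, h5⟩
    have h6 : Nat.pair j m ≠ Nat.pair j' m' := fun h => hjj (Nat.pair_eq_pair.1 h).1
    rcases lt_or_gt_of_ne h6 with h | h
    · left
      have h7 : 2 * Nat.pair j m + 1 < 2 * Nat.pair j' m' := by omega
      have h8 : π (2 * Nat.pair j m + 1) < π (2 * Nat.pair j' m') := hπ h7
      omega
    · right
      have h7 : 2 * Nat.pair j' m' + 1 < 2 * Nat.pair j m := by omega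
      have h8 : π (2 * Nat.pair j' m' + 1) < π (2 * Nat.pair j m) := hπ h7
      omega
  have hdisj : ∀ a a' : ℕ, a + 2 ≤ a' → ∀ t, t ∈ W a → t ∈ W a' → False := by
    intro a a' haa t h2 h3
    rw [hW] at h2 h3
    have h4 := abs_lt.1 h2.2
    have h5 := abs_lt.1 h3.2
    have h6 : (a : ℝ) + 2 ≤ a' := by exact_mod_cast haa
    have h7 : 0 < h t := lt_of_le_of_lt (abs_nonneg _) h2.2
    nlinarith
  obtain ⟨j, hj⟩ := not_all_unbounded θ hmul
    (fun j t => ∃ n ∈ {n | ∃ k ∈ κ j, π k ≤ n ∧ n < π (k + 1)}, t ∈ W n) fun j j' t h2 h3 => by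
      by_contra hjj
      obtain ⟨a, ha, hat⟩ := h2
      obtain ⟨a', ha', hat'⟩ := h3
      rcases hfar j j' a a' hjj ha ha' with h4 | h4
      · exact hdisj a a' h4 t hat hat'
      · exact hdisj a' a h4 t hat' hat
  exact hK (κ j) (hκ j) hj

theorem continuous_of_bd (θ : C(K, 𝕜) →ₗ[𝕜] B) (h : Bd θ (fun _ => True)) : Continuous θ := by
  obtain ⟨M, hM⟩ := h
  refine AddMonoidHomClass.continuous_of_bound θ (max M 0) fun f => ?_
  by_cases hf : f = 0
  · subst hf
    simp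
  · have h1 : 0 < ‖f‖ := norm_pos_iff.2 hf
    have h2 : ‖((‖f‖⁻¹ : ℝ) : 𝕜) • f‖ ≤ 1 := by
      rw [norm_smul, RCLike.norm_ofReal, abs_of_pos (inv_pos.2 h1), inv_mul_cancel₀ h1.ne']
    have h3 := hM _ h2 fun _ _ => trivial
    rw [map_smul, norm_smul, RCLike.norm_ofReal, abs_of_pos (inv_pos.2 h1)] at h3
    have h4 : ‖θ f‖ ≤ M * ‖f‖ := by
      rw [inv_mul_le_iff₀ h1] at h3
      linarith
    exact h4.trans (mul_le_mul_of_nonneg_right (le_max_left _ _) (norm_nonneg _))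

end Pool.Agent.TH774.KP
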